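import Mathlib
import Pool.Agent.H23.PF.DensP

/-!
# `p`-adic logarithms of values of multiplicative functions

Let `G_1, ..., G_m` be polynomials with integer coefficients which are multiplicatively independent
modulo constants. For a prime `p` let `f_1, ..., f_m` be multiplicative functions with values in the
algebraic closure of `ℚ_p` and `f_c (q) = G_c (q)` for all sufficiently large prime numbers `q` (the
values at prime powers and at small primes are arbitrary). We show that for almost all `k`-tuples
`(n_1, ..., n_k)` of positive integers the `k m` numbers `log_p f_c (n_j)` satisfy no nonzero polynomial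
relation of total degree `≤ D` with algebraic coefficients, and that the same holds over arbitrary
fixed elements `t_1, ..., t_l` which satisfy no such relation themselves. This is the `p`-adic
Schanuel conjecture in bounded degree for almost all of these tuples of logarithms.

The number of exceptional tuples with `n_j ≤ x` is at most `ε x ^ k` for all `x ≥ x₀`, where `x₀`
depends neither on the prime `p` nor on `f` nor on `t`: in fact, for any `N` prime numbers
the statement holds for almost all tuples for the `N` primes simultaneously, with `x₀` depending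
only on `N` but not on the primes.

For example, for almost all integers `n` the three numbers `log_p n`, `log_p φ(n)`, `log_p σ(n)` satisfy no
polynomial relation of degree `≤ D` over the algebraic numbers, where `φ` is Euler's function and `σ`
is the sum of the divisors: here the polynomials are `X`, `X - 1`, `X + 1`. The condition on the
polynomials cannot be dropped: for squarefree `n` one has `φ(n) σ(n) = J_2(n)`.

The proof.
* By Brumer's theorem and the `p`-adic hyperplane theorem (a case of the `p`-adic linear subgroup theorem)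
  no cube of large dimension `v + ∑_{i ∈ S} w_i` of vectors of `m` numbers, whose edges consist of
  `r m` linearly independent `p`-adic logarithms, is entirely exceptional; here the dimension `r` of the
  cube does not depend on the fields (`PF.VHypP`).
* Every dense set of integers contains a multiplicative cube `a s_1 ... s_r`, `s_i ∈ {p_i, q_i}`, with
  primes `p_i`, `q_i` not dividing `a` and primes `ρ_ij` which divide exactly one of the values of
  the coprime factors of the polynomials at the vertices. These primes are independent of the prime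
  `p`, and by their incidence properties `p` itself can be equal to one of them for at most one
  direction `i`; this direction is removed. For the other directions the valuations at the `ρ_ij ≠ p`
  show that the `r m` logarithms are linearly independent (`PF.DensP`).
-/

set_option autoImplicit false

open Polynomial

namespace Pool.Agent.Results.MP_c50dba_nt.MultiplicativeValues

/-- `L` is the Iwasawa logarithm on the algebraic closure of `ℚ_p`: it is a homomorphism on the
nonzero elements, given by the usual series on the open unit ball around `1`, and `L p = 0`. -/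
structure IsIwasawaLog (p : ℕ) [Fact p.Prime] (L : PadicAlgCl p → PadicAlgCl p) : Prop where
  mul : ∀ x y : PadicAlgCl p, x ≠ 0 → y ≠ 0 → L (x * y) = L x + L y
  prime : L ((p : ℕ) : PadicAlgCl p) = 0
  ser : ∀ z : PadicAlgCl p, ‖z‖ < 1 →
    HasSum (fun n : ℕ => (-1 : PadicAlgCl p) ^ n * z ^ (n + 1) / ((n : PadicAlgCl p) + 1))
      (L (1 + z))

/-- The numbers `x i` satisfy no nonzero polynomial relation of total degree at most `D`
with algebraic coefficients. -/
def IndepUpTo {p : ℕ} [Fact p.Prime] (D : ℕ) {σ : Type} (x : σ → PadicAlgCl p) : Prop :=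
  ∀ P : MvPolynomial σ (algebraicClosure ℚ (PadicAlgCl p)), P.totalDegree ≤ D →
    MvPolynomial.aeval x P = 0 → P = 0

/-- The polynomials `G_1, ..., G_m` are multiplicatively independent modulo nonzero constants. -/
def MultIndep {m : ℕ} (G : Fin m → ℤ[X]) : Prop :=
  ∀ (u v : Fin m → ℕ) (A B : ℤ), A ≠ 0 → B ≠ 0 →
    C A * ∏ c, G c ^ u c = C B * ∏ c, G c ^ v c → u = v

open Classical in
/-- **Main result.** -/
theorem result (m k l D N : ℕ) (G : Fin m → ℤ[X]) (hG : MultIndep G) (q₀ : ℕ)
    (ε : ℝ) (hε : 0 < ε) :
    ∃ x₀ : ℕ, ∀ x ≥ x₀, ∀ (p : Fin N → ℕ) [∀ i, Fact (p i).Prime]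
      (L : ∀ i, PadicAlgCl (p i) → PadicAlgCl (p i)), (∀ i, IsIwasawaLog (p i) (L i)) →
      ∀ f : ∀ i, Fin m → ArithmeticFunction (PadicAlgCl (p i)),
      (∀ i c, (f i c).IsMultiplicative) →
      (∀ i c, ∀ q : ℕ, q.Prime → q₀ ≤ q →
        f i c q = (((G c).eval (q : ℤ) : ℤ) : PadicAlgCl (p i))) →
      ∀ t : ∀ i, Fin l → PadicAlgCl (p i), (∀ i, IndepUpTo D (t i)) →
      (((Fintype.piFinset fun _ : Fin k => Finset.Icc 1 x).filter fun n =>
        ∃ i, (∀ j c, f i c (n j) ≠ 0) ∧
          ¬ IndepUpTo D (Sum.elim (t i) fun z : Fin k × Fin m => L i (f i z.2 (n z.1)))).card : ℝ) ≤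
        ε * (x : ℝ) ^ k := by
  have hN : (0 : ℝ) < N + 1 := by positivity
  obtain ⟨x₀, hx₀⟩ := Pool.Agent.H23.PF.density_tuples G hG q₀ D k (Fin l) (ε / (N + 1))
    (div_pos hε hN)
  refine ⟨x₀, fun x hx p _ L hL f hf hfp t ht => ?_⟩
  have h1 : Finset.Icc 1 x = Finset.Ioc 0 x := by
    ext n
    rw [Finset.mem_Icc, Finset.mem_Ioc]
    omega
  rw [h1]
  set Q : Fin N → Finset (Fin k → ℕ) := fun i =>
    (Fintype.piFinset fun _ : Fin k => Finset.Ioc 0 x).filter fun n =>
      (∀ j c, f i c (n j) ≠ 0) ∧
        ¬ IndepUpTo D (Sum.elim (t i) fun z : Fin k × Fin m => L i (f i z.2 (n z.1))) with hQ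
  have hQi : ∀ i, ((Q i).card : ℝ) ≤ ε / (N + 1) * (x : ℝ) ^ k := by
    intro i
    convert hx₀ (p i) (L i) ⟨(hL i).mul, (hL i).prime, (hL i).ser⟩ (f i) (hf i) (hfp i) x hx (t i)
      (ht i)
    exact Iff.rfl
  have hsub : ((Fintype.piFinset fun _ : Fin k => Finset.Ioc 0 x).filter fun n =>
        ∃ i, (∀ j c, f i c (n j) ≠ 0) ∧
          ¬ IndepUpTo D (Sum.elim (t i) fun z : Fin k × Fin m => L i (f i z.2 (n z.1)))) ⊆
      Finset.univ.biUnion Q := by
    intro n hn
    rw [Finset.mem_filter] at hn
    obtain ⟨h2, i, h3⟩ := hn
    rw [Finset.mem_biUnion]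
    exact ⟨i, Finset.mem_univ _, Finset.mem_filter.2 ⟨h2, h3⟩⟩
  have h4 := (Finset.card_le_card hsub).trans Finset.card_biUnion_le
  have h5 : (((Fintype.piFinset fun _ : Fin k => Finset.Ioc 0 x).filter fun n =>
        ∃ i, (∀ j c, f i c (n j) ≠ 0) ∧
          ¬ IndepUpTo D (Sum.elim (t i) fun z : Fin k × Fin m =>
            L i (f i z.2 (n z.1)))).card : ℝ) ≤ ∑ i, ((Q i).card : ℝ) := by
    exact_mod_cast h4
  refine h5.trans ((Finset.sum_le_sum fun i _ => hQi i).trans ?_)
  rw [Finset.sum_const, Finset.card_univ, Fintype.card_fin, nsmul_eq_mul]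
  have h6 : (N : ℝ) * (ε / (N + 1)) ≤ ε := by
    rw [mul_div_assoc', div_le_iff₀ hN]
    nlinarith
  calc (N : ℝ) * (ε / (N + 1) * (x : ℝ) ^ k) = (N : ℝ) * (ε / (N + 1)) * (x : ℝ) ^ k := by ring
    _ ≤ ε * (x : ℝ) ^ k := by
        apply mul_le_mul_of_nonneg_right h6
        positivity

end Pool.Agent.Results.MP_c50dba_nt.MultiplicativeValues
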