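import Mathlib
import Pool.Agent.H23.PG.Ap
import Pool.Agent.H23.PG.Reg

/-!
# `p`-adic regulators of subgroups, and hypersurfaces through families of `p`-adic logarithms

Let `K` be a field with embeddings `σ_1, ..., σ_d` into the algebraic closure `E` of `ℚ_p` and let
`α_1, ..., α_N` be elements of `K` such that the `d N` numbers `σ_i α_k` are algebraic and multiplicatively
independent modulo the powers of `p` (for example `K` a number field and `α_k` generators of powers of prime
ideals of degree one over different primes, with all the embeddings of `K`). For an integer `r × N` matrix `B`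
let `β_j = α_1 ^ B_j1 ... α_N ^ B_jN`. By the `p`-adic Schanuel conjecture the vectors
`(log_p σ_i β_j)_i`, `j = 1, ..., r ≤ d`, are linearly independent over `E` if the rows of `B` are linearly
independent: the `p`-adic regulator of the group generated by the `β_j` does not vanish, as in Leopoldt's
conjecture.

* Regulators. Let `Z` consist of `s` linearly independent vectors in `E ^ d` (for example
  vectors of logarithms of units of `K`), `s + r ≤ d`. For all but `r (2 H + 1) ^ ((r - 1) N + d (d - 1))` of the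
  `(2 H + 1) ^ (r N)` integer matrices `B` with entries of absolute value at most `H` the vectors of `Z` and
  the `r` vectors `(log_p σ_i β_j)_i` are linearly independent over `E`. At least
  `(2 H + 1) ^ ((r - 1) N)` matrices (`r ≥ 1`) are exceptions for trivial reasons, so the exponent is the expected one
  up to the bounded term `d (d - 1)`.

* Hypersurfaces. Let `F` be any nonzero polynomial in `m` variables over `E`, of any degree. Let `Λ` be an `m × N`
  matrix of linear forms in `1` and `p`-adic logarithms of algebraic numbers, such that for all nonzero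
  `a ∈ ℚ̄ ^ m` the entries of `a Λ` span a space of dimension at least `ρ` over `ℚ̄`, and let `ζ ∈ E ^ m`. The
  `b ∈ ℚ̄ ^ N` with `F (ζ + Λ b) = 0` lie in an algebraic subset of `ℚ̄ ^ N` of dimension at most
  `(N - ρ) + m (m - 1)`, and the number of the integral ones of height at most `H` is at most
  `κ H ^ ((N - ρ) + m (m - 1))`. For the logarithms of `m` conjugates of `α_1 ^ b_1 ... α_N ^ b_N` we have `ρ = N`: the
  exponent is `m (m - 1)` for every `N` and every degree of `F`.

The second part is about fixed hypersurfaces, of any degree and with arbitrary coefficients (`ThinFamilies`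
for this problem is about all relations of bounded degree with algebraic coefficients at once; the bound there grows
with the degree).
-/

set_option autoImplicit false

open Module

namespace Pool.Agent.Results.MP_c50dba_nt.RegulatorsOfSubgroups

/-- `L` is the Iwasawa logarithm on the algebraic closure of `ℚ_p`: it is a homomorphism on the
nonzero elements, given by the usual series on the open unit ball around `1`, and `L p = 0`. -/
structure IsIwasawaLog (p : ℕ) [Fact p.Prime] (L : PadicAlgCl p → PadicAlgCl p) : Prop where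
  mul : ∀ x y : PadicAlgCl p, x ≠ 0 → y ≠ 0 → L (x * y) = L x + L y
  prime : L ((p : ℕ) : PadicAlgCl p) = 0
  ser : ∀ z : PadicAlgCl p, ‖z‖ < 1 →
    HasSum (fun n : ℕ => (-1 : PadicAlgCl p) ^ n * z ^ (n + 1) / ((n : PadicAlgCl p) + 1))
      (L (1 + z))

/-- The space of all linear combinations, with algebraic coefficients, of `1` and of the values of
`L` at nonzero algebraic numbers. -/
noncomputable def LogForms {p : ℕ} [Fact p.Prime] (L : PadicAlgCl p → PadicAlgCl p) :
    Submodule (algebraicClosure ℚ (PadicAlgCl p)) (PadicAlgCl p) :=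
  Submodule.span (algebraicClosure ℚ (PadicAlgCl p))
    ({1} ∪ {z : PadicAlgCl p | ∃ α : PadicAlgCl p, α ≠ 0 ∧ IsAlgebraic ℚ α ∧ z = L α})

/-- For every nontrivial combination `a Λ` of the rows of `Λ` with algebraic coefficients, the `N`
entries of `a Λ` span a space of dimension at least `ρ` over the algebraic numbers. -/
def RowRankGE {p : ℕ} [Fact p.Prime] (ρ : ℕ) {m N : ℕ} (Λ : Fin m → Fin N → PadicAlgCl p) : Prop :=
  ∀ a : Fin m → algebraicClosure ℚ (PadicAlgCl p), a ≠ 0 →
    ρ ≤ finrank (algebraicClosure ℚ (PadicAlgCl p))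
      (Submodule.span (algebraicClosure ℚ (PadicAlgCl p))
        (Set.range fun k => ∑ i, (a i : PadicAlgCl p) * Λ i k))

/-- Any `d + 1` linear forms satisfy a nontrivial polynomial relation on `S`, that is, `S` lies in an
algebraic subset of dimension at most `d`. -/
def DimLE {p : ℕ} [Fact p.Prime] (d : ℕ) {N : ℕ}
    (S : Set (Fin N → algebraicClosure ℚ (PadicAlgCl p))) : Prop :=
  ∀ φ : Fin (d + 1) → ((Fin N → algebraicClosure ℚ (PadicAlgCl p)) →ₗ[algebraicClosure ℚ (PadicAlgCl p)]
      algebraicClosure ℚ (PadicAlgCl p)),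
    ∃ P : MvPolynomial (Fin (d + 1)) (algebraicClosure ℚ (PadicAlgCl p)), P ≠ 0 ∧
      ∀ b ∈ S, MvPolynomial.eval (fun k => φ k b) P = 0

/-- The `d N` numbers `σ_i α_k` are algebraic, not zero, and multiplicatively independent modulo the powers
of `p`. -/
structure Independent (p : ℕ) [Fact p.Prime] {K : Type} [Field K] {d N : ℕ}
    (σ : Fin d → K →+* PadicAlgCl p) (α : Fin N → K) : Prop where
  ne_zero : ∀ k, α k ≠ 0
  algebraic : ∀ i k, IsAlgebraic ℚ (σ i (α k))
  indep : ∀ (c : Fin d → Fin N → ℤ) (e : ℤ),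
    ∏ i, ∏ k, σ i (α k) ^ c i k = (p : PadicAlgCl p) ^ e → c = 0

section proof

variable {p : ℕ} [hp : Fact p.Prime] {L : PadicAlgCl p → PadicAlgCl p}

theorem conv (hL : IsIwasawaLog p L) : Pool.Agent.W245.PB.IsIwasawaLog p L :=
  ⟨hL.mul, hL.prime, hL.ser⟩

theorem defLE {m N ρ : ℕ} (hρN : ρ ≤ N) (Λ : Fin m → Fin N → PadicAlgCl p) (hρ : RowRankGE ρ Λ) :
    Pool.Agent.H23.PG.DefLE (N - ρ) Λ := by
  intro a ha
  have h2 := LinearMap.finrank_range_add_finrank_ker (Pool.Agent.H23.PG.pr Λ a)
  rw [finrank_fintype_fun_eq_card, Fintype.card_fin] at h2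
  have h4 : ρ ≤ finrank (Pool.Agent.Y787.QC (PadicAlgCl p))
      (LinearMap.range (Pool.Agent.H23.PG.pr Λ a)) := by
    rw [Pool.Agent.H23.PG.pr, Fintype.range_linearCombination]
    exact hρ a ha
  omega

theorem rank_of_li {m N : ℕ} (Λ : Fin m → Fin N → PadicAlgCl p)
    (h : ∀ a : Fin m → algebraicClosure ℚ (PadicAlgCl p), a ≠ 0 →
      LinearIndependent (algebraicClosure ℚ (PadicAlgCl p))
        (fun k => ∑ i, (a i : PadicAlgCl p) * Λ i k)) : RowRankGE N Λ := by
  intro a ha
  rw [finrank_span_eq_card (h a ha), Fintype.card_fin]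

theorem log_mem {α : PadicAlgCl p} (h0 : α ≠ 0) (h1 : IsAlgebraic ℚ α) : L α ∈ LogForms L :=
  Submodule.subset_span (Or.inr ⟨α, h0, h1, rfl⟩)

variable {K : Type} [Field K] {d N : ℕ} {σ : Fin d → K →+* PadicAlgCl p} {α : Fin N → K}

theorem ne0 (h : Independent p σ α) (i : Fin d) (k : Fin N) : σ i (α k) ≠ 0 :=
  (map_ne_zero (σ i)).2 (h.ne_zero k)

theorem rank_conj (hL : IsIwasawaLog p L) (h : Independent p σ α) :
    RowRankGE N (fun i k => L (σ i (α k))) := by
  have hli : LinearIndependent ℚ (fun z : Fin d × Fin N => L (σ z.1 (α z.2))) := by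
    refine Pool.Agent.H23.PG.li_of_mult (conv hL) (fun z : Fin d × Fin N => σ z.1 (α z.2))
      (fun z => ne0 h _ _) ?_
    intro c e hc
    have h1 := h.indep (fun i k => c (i, k)) e (by
      rw [← hc, Fintype.prod_prod_type])
    funext z
    exact congrFun (congrFun h1 z.1) z.2
  have hli2 := (conv hL).indep_of_indep (fun z : Fin d × Fin N => L (σ z.1 (α z.2)))
    (fun z => ⟨_, ne0 h z.1 z.2, h.algebraic z.1 z.2, rfl⟩) hli
  exact rank_of_li _ fun a ha => Pool.Agent.H23.PG.rows_of_li _ hli2 a ha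

theorem log_prod (hL : IsIwasawaLog p L) (h : Independent p σ α) (b : Fin N → ℤ) (i : Fin d) :
    L (σ i (∏ k, α k ^ b k)) = ∑ k, (b k : PadicAlgCl p) * L (σ i (α k)) := by
  rw [map_prod, (conv hL).prod _ _ (fun k _ => by
    rw [map_zpow₀]; exact zpow_ne_zero _ (ne0 h i k))]
  refine Finset.sum_congr rfl fun k _ => ?_
  rw [map_zpow₀, (conv hL).zpow (ne0 h i k)]

theorem box_eq (r N H : ℕ) (Q : (Fin r → Fin N → ℤ) → Prop) [DecidablePred Q] :
    {B : Fin r → Fin N → ℤ | (∀ j k, |B j k| ≤ H) ∧ Q B} =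
      ((Pool.Agent.H23.PG.boxes r N H).filter Q : Set (Fin r → Fin N → ℤ)) := by
  ext B
  rw [Finset.mem_coe, Finset.mem_filter, Pool.Agent.H23.PG.boxes, Fintype.mem_piFinset, Set.mem_ofPred_eq]
  refine and_congr_left fun _ => ⟨fun h j => ?_, fun h j k => ?_⟩
  · rw [Fintype.mem_piFinset]
    intro k
    rw [Finset.mem_Icc, ← abs_le]
    exact h j k
  · have h1 := h j
    rw [Fintype.mem_piFinset] at h1
    have h2 := h1 k
    rw [Finset.mem_Icc, ← abs_le] at h2
    exact h2

end proof

/-- **Main result.** -/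
theorem result (p : ℕ) [Fact p.Prime] (L : PadicAlgCl p → PadicAlgCl p) (hL : IsIwasawaLog p L) :
    -- regulators
    (∀ (K : Type) [Field K] (d N : ℕ) (σ : Fin d → K →+* PadicAlgCl p) (α : Fin N → K),
      Independent p σ α → ∀ (s r : ℕ), s + r ≤ d →
      ∀ Z : Fin s → Fin d → PadicAlgCl p, LinearIndependent (PadicAlgCl p) Z → ∀ H : ℕ,
      Set.ncard {B : Fin r → Fin N → ℤ | (∀ j k, |B j k| ≤ H) ∧
        ¬ LinearIndependent (PadicAlgCl p)
          (Sum.elim Z fun (j : Fin r) (i : Fin d) => L (σ i (∏ k, α k ^ B j k)))} ≤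
        r * (2 * H + 1) ^ ((r - 1) * N + d * (d - 1)) ∧
      (1 ≤ r → (2 * H + 1) ^ ((r - 1) * N) ≤
        Set.ncard {B : Fin r → Fin N → ℤ | (∀ j k, |B j k| ≤ H) ∧
          ¬ LinearIndependent (PadicAlgCl p)
            (Sum.elim Z fun (j : Fin r) (i : Fin d) => L (σ i (∏ k, α k ^ B j k)))})) ∧
    -- hypersurfaces
    (∀ (m : ℕ) (F : MvPolynomial (Fin m) (PadicAlgCl p)), F ≠ 0 →
      (∀ (N ρ : ℕ), ρ ≤ N →
        ∀ (Λ : Fin m → Fin N → PadicAlgCl p), (∀ i k, Λ i k ∈ LogForms L) → RowRankGE ρ Λ →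
        ∀ ζ : Fin m → PadicAlgCl p,
        DimLE ((N - ρ) + m * (m - 1)) {b : Fin N → algebraicClosure ℚ (PadicAlgCl p) |
          MvPolynomial.eval (fun i => ζ i + ∑ k, (b k : PadicAlgCl p) * Λ i k) F = 0} ∧
        ∃ κ : ℕ, ∀ H : ℕ, 1 ≤ H → Set.ncard {b : Fin N → ℤ | (∀ k, |b k| ≤ H) ∧
          MvPolynomial.eval (fun i => ζ i + ∑ k, (b k : PadicAlgCl p) * Λ i k) F = 0} ≤
            κ * H ^ ((N - ρ) + m * (m - 1))) ∧
      ∀ (K : Type) [Field K] (N : ℕ) (σ : Fin m → K →+* PadicAlgCl p) (α : Fin N → K),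
        Independent p σ α →
        ∃ κ : ℕ, ∀ H : ℕ, 1 ≤ H → Set.ncard {b : Fin N → ℤ | (∀ k, |b k| ≤ H) ∧
          MvPolynomial.eval (fun i => L (σ i (∏ k, α k ^ b k))) F = 0} ≤ κ * H ^ (m * (m - 1))) := by
  classical
  have hyp := Pool.Agent.Y787.hypC_padic (conv hL)
  refine ⟨?_, ?_⟩
  · intro K _ d N σ α hα s r hsr Z hZ H
    have hset : {B : Fin r → Fin N → ℤ | (∀ j k, |B j k| ≤ H) ∧
        ¬ LinearIndependent (PadicAlgCl p)
          (Sum.elim Z fun (j : Fin r) (i : Fin d) => L (σ i (∏ k, α k ^ B j k)))} =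
        ((Pool.Agent.H23.PG.boxes r N H).filter fun B =>
          ¬ LinearIndependent (PadicAlgCl p)
            (Pool.Agent.H23.PG.cols Z (fun i k => L (σ i (α k))) B) : Set (Fin r → Fin N → ℤ)) := by
      rw [← box_eq]
      ext B
      refine and_congr_right fun _ => ?_
      simp only [log_prod hL hα]
      rfl
    rw [hset, Set.ncard_coe_finset]
    refine ⟨?_, fun hr => ?_⟩
    · have hdef := defLE le_rfl _ (rank_conj hL hα)
      rw [Nat.sub_self] at hdef
      have hw := Pool.Agent.H23.PG.wide_of_def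
        (Lt := Pool.Agent.W254.PA.LtE (Pool.Agent.W254.PA.logs L))
        (fun i k => L (σ i (α k))) (fun i k => log_mem (ne0 hα i k) (hα.algebraic i k)) hdef
      rw [add_zero] at hw
      exact Pool.Agent.H23.PG.reg_count _ hw Z hZ H r hsr
    · obtain ⟨r', rfl⟩ : ∃ r', r = r' + 1 := ⟨r - 1, by omega⟩
      rw [Nat.add_sub_cancel]
      have h1 : (2 * H + 1) ^ (r' * N) = (Pool.Agent.H23.PG.boxes r' N H).card := by
        rw [Pool.Agent.H23.PG.card_boxes, ← pow_mul]
        congr 1
        ring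
      rw [h1]
      apply Finset.card_le_card_of_injOn (fun B => (Fin.cons 0 B : Fin (r' + 1) → Fin N → ℤ))
      · intro B hB
        rw [Finset.mem_coe, Pool.Agent.H23.PG.boxes, Fintype.mem_piFinset] at hB
        rw [Finset.mem_coe, Finset.mem_filter, Pool.Agent.H23.PG.boxes, Fintype.mem_piFinset]
        refine ⟨fun j => ?_, fun hli => ?_⟩
        · refine Fin.cases ?_ (fun j => ?_) j
          · show (0 : Fin N → ℤ) ∈ Fintype.piFinset fun _ : Fin N => Finset.Icc (-(H : ℤ)) H
            rw [Fintype.mem_piFinset]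
            intro k
            rw [Finset.mem_Icc, Pi.zero_apply]
            omega
          · exact hB j
        · apply hli.ne_zero (Sum.inr 0)
          funext i
          show ∑ k, (((Fin.cons 0 B : Fin (r' + 1) → Fin N → ℤ) 0 k : ℤ) : PadicAlgCl p) *
            L (σ i (α k)) = 0
          simp
      · intro B _ B' _ h
        exact Fin.cons_right_injective (α := fun _ => Fin N → ℤ) 0 h
  · intro m F hF
    have main : ∀ (N ρ : ℕ), ρ ≤ N →
        ∀ (Λ : Fin m → Fin N → PadicAlgCl p), (∀ i k, Λ i k ∈ LogForms L) → RowRankGE ρ Λ →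
        ∀ ζ : Fin m → PadicAlgCl p,
        DimLE ((N - ρ) + m * (m - 1)) {b : Fin N → algebraicClosure ℚ (PadicAlgCl p) |
          MvPolynomial.eval (fun i => ζ i + ∑ k, (b k : PadicAlgCl p) * Λ i k) F = 0} := by
      intro N ρ hρN Λ hΛ hρ ζ φ
      exact Pool.Agent.H23.PG.hyper_dim (q := (N - ρ) + m * (m - 1) + 1) (s := N - ρ) (by ring) Λ
        (Lt := Pool.Agent.W254.PA.LtE (Pool.Agent.W254.PA.logs L)) hΛ (defLE hρN Λ hρ) ζ φ
        F.totalDegree F hF le_rfl
    refine ⟨fun N ρ hρN Λ hΛ hρ ζ => ⟨main N ρ hρN Λ hΛ hρ ζ, ?_⟩, ?_⟩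
    · exact Pool.Agent.H23.PG.count_box _ (main N ρ hρN Λ hΛ hρ ζ)
    · intro K _ N σ α hα
      have h1 := main N N le_rfl (fun i k => L (σ i (α k)))
        (fun i k => log_mem (ne0 hα i k) (hα.algebraic i k)) (rank_conj hL hα) (fun _ => 0)
      rw [Nat.sub_self, zero_add] at h1
      obtain ⟨κ, hκ⟩ := Pool.Agent.H23.PG.count_box _ h1
      refine ⟨κ, fun H hH => ?_⟩
      refine le_trans (le_of_eq ?_) (hκ H hH)
      congr 1
      ext b
      refine and_congr_right fun _ => ?_
      simp only [log_prod hL hα, zero_add, Set.mem_ofPred_eq]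
      rfl

end Pool.Agent.Results.MP_c50dba_nt.RegulatorsOfSubgroups
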