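import Mathlib
import Pool.Agent.H23.PG.Ap

/-!
# Relations of bounded degree in thin families of tuples of `p`-adic logarithms

Let `Λ` be an `m × N` matrix whose entries are linear forms, with algebraic coefficients, in `1` and
`p`-adic logarithms of algebraic numbers. Consider the `N`-parameter family of tuples `ζ + Λ b`,
`b ∈ ℚ̄ ^ N`, where `ζ` is an arbitrary vector over the algebraic closure of `ℚ_p`, and elements
`t_1, ..., t_l` of this field which satisfy no nonzero polynomial relation of degree `≤ D` over `ℚ̄`.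
Suppose that for every nonzero `a ∈ ℚ̄ ^ m` the `N` entries of the combination `a Λ` of the rows of `Λ`
span a space of dimension at least `ρ` over `ℚ̄`. We prove that the exceptional parameters `b`, for
which `t` and the `m` coordinates of `ζ + Λ b` satisfy a nonzero polynomial relation of total degree
`≤ D` over `ℚ̄`, lie in an algebraic subset of `ℚ̄ ^ N` of dimension at most

`d = (N - ρ) + m (m - 1) + binom(D + l + m, l + m) - 1`,

and that at most `κ H ^ d` integer vectors `b` with `|b_k| ≤ H` are exceptional.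
The extreme case is `ρ = N`: no combination `∑ a_i b_k Λ_ik` with nonzero `a` and `b` vanishes. Then `d`
does not depend on the number `N` of the parameters. Two examples are part of the theorem.

* Let `K` be a number field with embeddings `σ_1, ..., σ_m` into the algebraic closure of `ℚ_p` and let
  `α_1, ..., α_N` be elements of `K` such that the `m N` numbers `σ_i α_k` are multiplicatively
  independent modulo the powers of `p`. For all but `κ H ^ d` of the `(2 H + 1) ^ N` integer vectors `b` with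
  `|b_k| ≤ H` the logarithms of the `m` conjugates of `α_1 ^ b_1 ... α_N ^ b_N` satisfy no relation of
  degree `≤ D` (also over `t`). Here `d = m (m - 1) + binom(D + l + m, l + m) - 1` for every `N`.
  The field `K` need not be a number field.
* For different primes `q_0, q_1, ...`, all different from `p`, the same holds for the logarithms of
  the `m` shifted numbers `n_i = q_i ^ b_1 q_(i+1) ^ b_2 ... q_(i+N-1) ^ b_N`.

In these families the `m N` coefficients of the `m` logarithms depend on `N` parameters only.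
The earlier results on bounded degree let the `m N` coefficients vary independently; they bound the
dimension of the exceptional set by about `(m - 1) N`, which says nothing about `N`-parameter families.

The proof follows the one of the corresponding theorem for complex logarithms. The method uses only
the hyperplane case of the linear subgroup theorem, which holds `p`-adically. Suppose that the theorem
fails. Then there are a parameter vector `b` over an ultrapower of `ℚ̄` with a relation `f` of minimal degree,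
and `d + 1` linear forms in `b` which are algebraically independent over `ℚ̄`. Those
combinations of the derivations with respect to these forms which vanish on the coefficients of `f` form a
space of dimension `> (N - ρ) + m (m - 1)` and map `b` to vectors `b'` with
`∑_i (∂f/∂Y_i) (Λ b')_i = 0`. By the assumption on the rows, a subspace of dimension `> m (m - 1)` gives
linearly independent tuples of linear forms in logarithms for a projection of the gradient, a
contradiction.
-/

set_option autoImplicit false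

open Module

namespace Pool.Agent.Results.MP_c50dba_nt.ThinFamilies

/-- `L` is the Iwasawa logarithm on the algebraic closure of `ℚ_p`: it is a homomorphism on the
nonzero elements, given by the usual series on the open unit ball around `1`, and `L p = 0`. -/
structure IsIwasawaLog (p : ℕ) [Fact p.Prime] (L : PadicAlgCl p → PadicAlgCl p) : Prop where
  mul : ∀ x y : PadicAlgCl p, x ≠ 0 → y ≠ 0 → L (x * y) = L x + L y
  prime : L ((p : ℕ) : PadicAlgCl p) = 0
  ser : ∀ z : PadicAlgCl p, ‖z‖ < 1 →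
    HasSum (fun n : ℕ => (-1 : PadicAlgCl p) ^ n * z ^ (n + 1) / ((n : PadicAlgCl p) + 1))
      (L (1 + z))

/-- The elements `x i` satisfy no nonzero polynomial relation of total degree at most `D`
with algebraic coefficients. -/
def IndepUpTo {p : ℕ} [Fact p.Prime] (D : ℕ) {σ : Type} (x : σ → PadicAlgCl p) : Prop :=
  ∀ P : MvPolynomial σ (algebraicClosure ℚ (PadicAlgCl p)), P.totalDegree ≤ D →
    MvPolynomial.aeval x P = 0 → P = 0

/-- The space of all linear combinations, with algebraic coefficients, of `1` and of the values of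
`L` at nonzero algebraic numbers. -/
noncomputable def LogForms {p : ℕ} [Fact p.Prime] (L : PadicAlgCl p → PadicAlgCl p) :
    Submodule (algebraicClosure ℚ (PadicAlgCl p)) (PadicAlgCl p) :=
  Submodule.span (algebraicClosure ℚ (PadicAlgCl p))
    ({1} ∪ {z : PadicAlgCl p | ∃ α : PadicAlgCl p, α ≠ 0 ∧ IsAlgebraic ℚ α ∧ z = L α})

/-- For every nontrivial combination `a Λ` of the rows of `Λ` with algebraic coefficients, the `N`
entries of `a Λ` span a space of dimension at least `ρ` over the algebraic numbers. -/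
def RowRankGE {p : ℕ} [Fact p.Prime] (ρ : ℕ) {m N : ℕ} (Λ : Fin m → Fin N → PadicAlgCl p) : Prop :=
  ∀ a : Fin m → algebraicClosure ℚ (PadicAlgCl p), a ≠ 0 →
    ρ ≤ finrank (algebraicClosure ℚ (PadicAlgCl p))
      (Submodule.span (algebraicClosure ℚ (PadicAlgCl p))
        (Set.range fun k => ∑ i, (a i : PadicAlgCl p) * Λ i k))

/-- Any `d + 1` linear forms satisfy a nontrivial polynomial relation on `S`, that is, `S` lies in an
algebraic subset of dimension at most `d`. -/
def DimLE {p : ℕ} [Fact p.Prime] (d : ℕ) {N : ℕ}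
    (S : Set (Fin N → algebraicClosure ℚ (PadicAlgCl p))) : Prop :=
  ∀ φ : Fin (d + 1) → ((Fin N → algebraicClosure ℚ (PadicAlgCl p)) →ₗ[algebraicClosure ℚ (PadicAlgCl p)]
      algebraicClosure ℚ (PadicAlgCl p)),
    ∃ P : MvPolynomial (Fin (d + 1)) (algebraicClosure ℚ (PadicAlgCl p)), P ≠ 0 ∧
      ∀ b ∈ S, MvPolynomial.eval (fun k => φ k b) P = 0

section proof

variable {p : ℕ} [hp : Fact p.Prime] {L : PadicAlgCl p → PadicAlgCl p}

theorem conv (hL : IsIwasawaLog p L) : Pool.Agent.W245.PB.IsIwasawaLog p L :=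
  ⟨hL.mul, hL.prime, hL.ser⟩

theorem dim_part (hL : IsIwasawaLog p L) {m N l D ρ d : ℕ} (hρN : ρ ≤ N)
    (hd : d + 1 = (N - ρ) + m * (m - 1) + (D + (l + m)).choose (l + m))
    (Λ : Fin m → Fin N → PadicAlgCl p) (hΛ : ∀ i k, Λ i k ∈ LogForms L) (hρ : RowRankGE ρ Λ)
    (ζ : Fin m → PadicAlgCl p) (t : Fin l → PadicAlgCl p) (ht : IndepUpTo D t) :
    DimLE d {b : Fin N → algebraicClosure ℚ (PadicAlgCl p) |
      ¬ IndepUpTo D (Sum.elim t fun i => ζ i + ∑ k, (b k : PadicAlgCl p) * Λ i k)} := by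
  intro φ
  have := Pool.Agent.Y787.hypC_padic (conv hL)
  have hdef : Pool.Agent.H23.PG.DefLE (N - ρ) Λ := by
    intro a ha
    have h2 := LinearMap.finrank_range_add_finrank_ker (Pool.Agent.H23.PG.pr Λ a)
    rw [finrank_fintype_fun_eq_card, Fintype.card_fin] at h2
    have h4 : ρ ≤ finrank (Pool.Agent.Y787.QC (PadicAlgCl p))
        (LinearMap.range (Pool.Agent.H23.PG.pr Λ a)) := by
      rw [Pool.Agent.H23.PG.pr, Fintype.range_linearCombination]
      exact hρ a ha
    omega
  have hx : ¬ Pool.Agent.Y787.HS.RlK (Pool.Agent.Y787.QC (PadicAlgCl p)) D t := by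
    rintro ⟨f, h1, h2, h3⟩
    exact h1 (ht f h2 h3)
  obtain ⟨P, h1, h2⟩ := Pool.Agent.H23.PG.one_generic (q := d + 1) (s := N - ρ) (by omega) Λ
    (Lt := Pool.Agent.W254.PA.LtE (Pool.Agent.W254.PA.logs L)) hΛ hdef ζ t
    hx φ
  refine ⟨P, h1, fun b hb => h2 b ?_⟩
  have hb' : ¬ ∀ P : MvPolynomial (Fin l ⊕ Fin m) (algebraicClosure ℚ (PadicAlgCl p)),
    P.totalDegree ≤ D →
    MvPolynomial.aeval (Sum.elim t fun i => ζ i + ∑ k, (b k : PadicAlgCl p) * Λ i k) P = 0 →
      P = 0 := hb
  push Not at hb'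
  obtain ⟨f, h3, h4, h5⟩ := hb'
  exact ⟨f, h5, h3, h4⟩

theorem count_part (hL : IsIwasawaLog p L) {m N l D ρ d : ℕ} (hρN : ρ ≤ N)
    (hd : d + 1 = (N - ρ) + m * (m - 1) + (D + (l + m)).choose (l + m))
    (Λ : Fin m → Fin N → PadicAlgCl p) (hΛ : ∀ i k, Λ i k ∈ LogForms L) (hρ : RowRankGE ρ Λ)
    (ζ : Fin m → PadicAlgCl p) (t : Fin l → PadicAlgCl p) (ht : IndepUpTo D t) :
    ∃ κ : ℕ, ∀ H : ℕ, 1 ≤ H → Set.ncard {b : Fin N → ℤ | (∀ k, |b k| ≤ H) ∧
      ¬ IndepUpTo D (Sum.elim t fun i => ζ i + ∑ k, (b k : PadicAlgCl p) * Λ i k)} ≤ κ * H ^ d := by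
  obtain ⟨κ, hκ⟩ := Pool.Agent.H23.PG.count_box _ (dim_part hL hρN hd Λ hΛ hρ ζ t ht)
  exact ⟨κ, fun H hH => hκ H hH⟩

theorem rank_of_li {m N : ℕ} (Λ : Fin m → Fin N → PadicAlgCl p)
    (h : ∀ a : Fin m → algebraicClosure ℚ (PadicAlgCl p), a ≠ 0 →
      LinearIndependent (algebraicClosure ℚ (PadicAlgCl p))
        (fun k => ∑ i, (a i : PadicAlgCl p) * Λ i k)) : RowRankGE N Λ := by
  intro a ha
  rw [finrank_span_eq_card (h a ha), Fintype.card_fin]

theorem log_mem {α : PadicAlgCl p} (h0 : α ≠ 0) (h1 : IsAlgebraic ℚ α) : L α ∈ LogForms L :=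
  Submodule.subset_span (Or.inr ⟨α, h0, h1, rfl⟩)

theorem shift_indep (m N : ℕ) (q : ℕ → ℕ) (hq : ∀ s, (q s).Prime) (hinj : Function.Injective q)
    (hqp : ∀ s, q s ≠ p) (c : Fin (m + N) → ℤ) (e : ℤ)
    (h : ∏ s : Fin (m + N), ((q s : ℕ) : PadicAlgCl p) ^ c s = (p : PadicAlgCl p) ^ e) : c = 0 := by
  classical
  have h1 : ((∏ s : Fin (m + N), ((q s : ℕ) : ℚ) ^ c s : ℚ) : PadicAlgCl p) =
      (((p : ℚ) ^ e : ℚ) : PadicAlgCl p) := by
    push_cast
    exact h
  have h2 := Rat.cast_injective h1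
  funext s
  have : Fact (q s).Prime := ⟨hq s⟩
  have h3 := congrArg (padicValRat (q s)) h2
  rw [Pool.Agent.W245.PB.padicValRat_prod_zpow (q s) Finset.univ (fun s : Fin (m + N) => ((q s : ℕ) : ℚ))
    (fun i _ => Nat.cast_ne_zero.2 (hq i).ne_zero) c, padicValRat.zpow] at h3
  have h4 : padicValRat (q s) ((p : ℕ) : ℚ) = 0 := by
    rw [padicValRat.of_nat, padicValNat_primes (hqp s)]
    rfl
  have h5 : ∑ i, c i * padicValRat (q s) ((q i : ℕ) : ℚ) = c s := by
    rw [Finset.sum_eq_single s]
    · rw [padicValRat.of_nat, padicValNat_self]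
      simp
    · intro i _ his
      have h6 : q s ≠ q i := fun h => his (Fin.ext (hinj h).symm)
      have : Fact (q i).Prime := ⟨hq i⟩
      rw [padicValRat.of_nat, padicValNat_primes h6]
      simp
    · intro h; exact absurd (Finset.mem_univ _) h
  rw [h5, h4, mul_zero] at h3
  exact h3

end proof

/-- **Main result.** -/
theorem result (p : ℕ) [Fact p.Prime] (L : PadicAlgCl p → PadicAlgCl p) (hL : IsIwasawaLog p L)
    (m N l D : ℕ) (t : Fin l → PadicAlgCl p) (ht : IndepUpTo D t) :
    -- the general theorem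
    (∀ (ρ d : ℕ), ρ ≤ N → d + 1 = (N - ρ) + m * (m - 1) + (D + (l + m)).choose (l + m) →
      ∀ (Λ : Fin m → Fin N → PadicAlgCl p), (∀ i k, Λ i k ∈ LogForms L) → RowRankGE ρ Λ →
      ∀ ζ : Fin m → PadicAlgCl p,
      DimLE d {b : Fin N → algebraicClosure ℚ (PadicAlgCl p) |
        ¬ IndepUpTo D (Sum.elim t fun i => ζ i + ∑ k, (b k : PadicAlgCl p) * Λ i k)} ∧
      ∃ κ : ℕ, ∀ H : ℕ, 1 ≤ H → Set.ncard {b : Fin N → ℤ | (∀ k, |b k| ≤ H) ∧
        ¬ IndepUpTo D (Sum.elim t fun i => ζ i + ∑ k, (b k : PadicAlgCl p) * Λ i k)} ≤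
          κ * H ^ d) ∧
    -- logarithms of conjugates
    (∀ d : ℕ, d + 1 = m * (m - 1) + (D + (l + m)).choose (l + m) →
      ∀ (K : Type) [Field K] (σ : Fin m → K →+* PadicAlgCl p) (α : Fin N → K),
      (∀ k, α k ≠ 0) → (∀ i k, IsAlgebraic ℚ (σ i (α k))) →
      (∀ (c : Fin m → Fin N → ℤ) (e : ℤ),
        ∏ i, ∏ k, σ i (α k) ^ c i k = (p : PadicAlgCl p) ^ e → c = 0) →
      ∃ κ : ℕ, ∀ H : ℕ, 1 ≤ H → Set.ncard {b : Fin N → ℤ | (∀ k, |b k| ≤ H) ∧
        ¬ IndepUpTo D (Sum.elim t fun i => L (σ i (∏ k, α k ^ b k)))} ≤ κ * H ^ d) ∧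
    -- logarithms of shifted numbers
    (∀ d : ℕ, d + 1 = m * (m - 1) + (D + (l + m)).choose (l + m) →
      ∀ (q : ℕ → ℕ), (∀ s, (q s).Prime) → Function.Injective q → (∀ s, q s ≠ p) →
      ∃ κ : ℕ, ∀ H : ℕ, 1 ≤ H → Set.ncard {b : Fin N → ℤ | (∀ k, |b k| ≤ H) ∧
        ¬ IndepUpTo D (Sum.elim t fun i : Fin m =>
          L (∏ k : Fin N, ((q (i + k) : ℕ) : PadicAlgCl p) ^ b k))} ≤ κ * H ^ d) := by
  classical
  refine ⟨fun ρ d hρN hd Λ hΛ hρ ζ => ⟨dim_part hL hρN hd Λ hΛ hρ ζ t ht,
    count_part hL hρN hd Λ hΛ hρ ζ t ht⟩, ?_, ?_⟩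
  · intro d hd K _ σ α hα halg hind
    have hne : ∀ i k, σ i (α k) ≠ 0 := fun i k => (map_ne_zero (σ i)).2 (hα k)
    have hli : LinearIndependent ℚ (fun z : Fin m × Fin N => L (σ z.1 (α z.2))) := by
      refine Pool.Agent.H23.PG.li_of_mult (conv hL) (fun z : Fin m × Fin N => σ z.1 (α z.2))
        (fun z => hne _ _) ?_
      intro c e hc
      have h1 := hind (fun i k => c (i, k)) e (by
        rw [← hc, Fintype.prod_prod_type])
      funext z
      exact congrFun (congrFun h1 z.1) z.2
    have hli2 := (conv hL).indep_of_indep (fun z : Fin m × Fin N => L (σ z.1 (α z.2)))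
      (fun z => ⟨_, hne z.1 z.2, halg z.1 z.2, rfl⟩) hli
    obtain ⟨κ, hκ⟩ := count_part (ρ := N) (d := d) hL le_rfl (by omega)
      (fun i k => L (σ i (α k))) (fun i k => log_mem (hne i k) (halg i k))
      (rank_of_li _ fun a ha => Pool.Agent.H23.PG.rows_of_li _ hli2 a ha) (fun _ => 0) t ht
    refine ⟨κ, fun H hH => ?_⟩
    refine le_trans (le_of_eq ?_) (hκ H hH)
    congr 1
    ext b
    refine and_congr_right fun _ => ?_
    have h1 : ∀ i, L (σ i (∏ k, α k ^ b k)) = 0 + ∑ k, (b k : PadicAlgCl p) * L (σ i (α k)) := by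
      intro i
      rw [map_prod, (conv hL).prod _ _ (fun k _ => by
        rw [map_zpow₀]; exact zpow_ne_zero _ (hne i k)), zero_add]
      refine Finset.sum_congr rfl fun k _ => ?_
      rw [map_zpow₀, (conv hL).zpow (hne i k)]
    simp only [h1]
  · intro d hd q hq hinj hqp
    have hne : ∀ s, ((q s : ℕ) : PadicAlgCl p) ≠ 0 := fun s => Nat.cast_ne_zero.2 (hq s).ne_zero
    have hli : LinearIndependent ℚ (fun s : Fin (m + N) => L ((q s : ℕ) : PadicAlgCl p)) :=
      Pool.Agent.H23.PG.li_of_mult (conv hL) (fun s : Fin (m + N) => ((q s : ℕ) : PadicAlgCl p))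
        (fun s => hne s) (shift_indep m N q hq hinj hqp)
    have hli2 := (conv hL).indep_of_indep (fun s : Fin (m + N) => L ((q s : ℕ) : PadicAlgCl p))
      (fun s => ⟨_, hne s, isAlgebraic_natCast _, rfl⟩) hli
    obtain ⟨κ, hκ⟩ := count_part (ρ := N) (d := d) hL le_rfl (by omega)
      (fun (i : Fin m) (k : Fin N) => L ((q (i + k) : ℕ) : PadicAlgCl p))
      (fun i k => log_mem (hne _) (isAlgebraic_natCast _))
      (rank_of_li _ fun a ha =>
        Pool.Agent.H23.PG.rows_hankel (fun s => L ((q s : ℕ) : PadicAlgCl p)) hli2 a ha)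
      (fun _ => 0) t ht
    refine ⟨κ, fun H hH => ?_⟩
    refine le_trans (le_of_eq ?_) (hκ H hH)
    congr 1
    ext b
    refine and_congr_right fun _ => ?_
    have h1 : ∀ i : Fin m, L (∏ k : Fin N, ((q (i + k) : ℕ) : PadicAlgCl p) ^ b k) =
        0 + ∑ k : Fin N, (b k : PadicAlgCl p) * L ((q (i + k) : ℕ) : PadicAlgCl p) := by
      intro i
      rw [(conv hL).prod _ _ (fun k _ => zpow_ne_zero _ (hne _)), zero_add]
      refine Finset.sum_congr rfl fun k _ => ?_
      rw [(conv hL).zpow (hne _)]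
    simp only [h1]

end Pool.Agent.Results.MP_c50dba_nt.ThinFamilies
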