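import Pool.Agent.H80.F4.Padic

set_option autoImplicit false

/-!
# `p`-adic Schanuel conjecture: proportional pairs of logarithms of totally positive numbers

Let `L` be the Iwasawa logarithm on the algebraic closure of `ℚ_p`.  Let `x ≠ 1/2` be an algebraic
number all of whose conjugates are real numbers in the open interval `(0, 1)`, such that `x` and
`1 - x` are `p`-adic units.  If logarithms of algebraic numbers which are linearly independent over
`ℚ` are algebraically independent, then there is no transcendental `t` such that `t L(x)` and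
`t L(1 - x)` are both logarithms of algebraic numbers, or linear forms in `1` and such logarithms
with algebraic coefficients: for `t L(x) = L(α)` and `t L(1 - x) = L(β)` this would be the relation
`L(x) L(β) = L(1 - x) L(α)`.

We show that for every transcendental `t` there is at most one pair `{x, 1 - x}` of this kind, unless
the exceptional pairs are exactly `{1/3, 2/3}, {1/4, 3/4}, {1/9, 8/9}`, or exactly the two pairs of
roots of `5 x ^ 2 - 5 x + 1` and of `125 x ^ 2 - 125 x + 1`.

This is the `p`-adic form of `MP_a4edf3_nt.TotallyPositivePairs`.  The proof combines the `p`-adic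
strong six exponentials theorem and Brumer's theorem (starting files) with the classification of the
totally positive solutions of `x + y = 1` in groups of rank two which is proved there: two such pairs
are compared at all finite and infinite places of the number field `ℚ(x, x')`.
-/

namespace Pool.Agent.Results.MP_c50dba_nt.TotallyPositivePairs

/-- `L` is the Iwasawa `p`-adic logarithm. -/
def IsIwasawaLog (p : ℕ) [Fact p.Prime] (L : PadicAlgCl p → PadicAlgCl p) : Prop :=
  (∀ x y : PadicAlgCl p, x ≠ 0 → y ≠ 0 → L (x * y) = L x + L y) ∧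
  L ((p : ℕ) : PadicAlgCl p) = 0 ∧
  ∀ z : PadicAlgCl p, ‖z‖ < 1 →
    HasSum (fun n : ℕ => (-1 : PadicAlgCl p) ^ n * z ^ (n + 1) / ((n : PadicAlgCl p) + 1))
      (L (1 + z))

/-- The linear forms in `1` and logarithms of algebraic numbers, with algebraic coefficients. -/
noncomputable def LogForms {p : ℕ} [Fact p.Prime] (L : PadicAlgCl p → PadicAlgCl p) :
    Submodule (algebraicClosure ℚ (PadicAlgCl p)) (PadicAlgCl p) :=
  Submodule.span (algebraicClosure ℚ (PadicAlgCl p))
    ({1} ∪ {z | ∃ α : PadicAlgCl p, α ≠ 0 ∧ IsAlgebraic ℚ α ∧ z = L α})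

/-- `x` is algebraic and all its complex conjugates are real numbers in the open interval
`(0, 1)`. -/
def ConjugatesInUnitInterval {p : ℕ} [Fact p.Prime] (x : PadicAlgCl p) : Prop :=
  IsAlgebraic ℚ x ∧ ∀ z : ℂ, Polynomial.aeval z (minpoly ℚ x) = 0 → ∃ r : ℝ, z = r ∧ 0 < r ∧ r < 1

/-- The numbers `x ≠ 1/2` with all conjugates in `(0, 1)` such that `x` and `1 - x` are `p`-adic
units and `t L(x)` and `t L(1 - x)` lie in `V`. -/
def Pairs {p : ℕ} [Fact p.Prime] (V : Submodule ℚ (PadicAlgCl p))
    (L : PadicAlgCl p → PadicAlgCl p) (t : PadicAlgCl p) : Set (PadicAlgCl p) :=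
  {x | ConjugatesInUnitInterval x ∧ x ≠ 1 / 2 ∧ ‖x‖ = 1 ∧ ‖1 - x‖ = 1 ∧ t * L x ∈ V ∧
    t * L (1 - x) ∈ V}

/-- **Main result.**  `V` is any `ℚ`-subspace of the space of linear forms in logarithms, for
instance the space of all logarithms of algebraic numbers. -/
theorem result (p : ℕ) [Fact p.Prime] (L : PadicAlgCl p → PadicAlgCl p) (hL : IsIwasawaLog p L)
    (t : PadicAlgCl p) (ht : Transcendental ℚ t) (V : Submodule ℚ (PadicAlgCl p))
    (hV : ∀ z ∈ V, z ∈ LogForms L) :
    (∃ x, Pairs V L t ⊆ {x, 1 - x}) ∨
    Pairs V L t = {1 / 3, 2 / 3, 1 / 4, 3 / 4, 1 / 9, 8 / 9} ∨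
    Pairs V L t = {x | (5 * x ^ 2 - 5 * x + 1) * (125 * x ^ 2 - 125 * x + 1) = 0} :=
  Pool.Agent.H80.F4.trichotomyP ⟨hL.1, hL.2.1, hL.2.2⟩ ht hV

end Pool.Agent.Results.MP_c50dba_nt.TotallyPositivePairs
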